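import Pool.Agent.H502R2.Final

/-!
Comparison of the number of the semigroups of depth at least four with a multiple of the number of
the semigroups of depth at most three.
-/

set_option autoImplicit false

namespace Pool.Agent.Y460.NS

open Pool.Agent.H502R2 Finset Polynomial

/-- comparison of the digits with a Fibonacci type sequence, with a factor -/
def lpr (P Q b : ℕ) : ℕ → ℕ → ℕ → ℕ → ℕ → ℕ → Bool
  | 0, _, _, _, _, _ => true
  | n + 1, N, s, t, u, v =>
    Nat.ble (Nat.mul (Nat.add (Nat.mul (Nat.mod N b) v) u) P) (Nat.mul (Nat.mul s v) Q) &&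
      lpr P Q b n (Nat.div N b) t (Nat.add s t) (Nat.mul 8 u) (Nat.mul 5 v)

/-- comparison of the digits with a list, then with a Fibonacci type sequence, with a factor -/
def lplr (P Q b n s t : ℕ) : List ℕ → ℕ → ℕ → ℕ → Bool
  | [], N, u, v => lpr P Q b n N s t u v
  | a :: l, N, u, v =>
    Nat.ble (Nat.mul (Nat.add (Nat.mul (Nat.mod N b) v) u) P) (Nat.mul (Nat.mul a v) Q) &&
      lplr P Q b n s t l (Nat.div N b) (Nat.mul 8 u) (Nat.mul 5 v)

theorem lpr_spec (P Q b : ℕ) (n : ℕ) : ∀ N s t u v : ℕ, lpr P Q b n N s t u v = true → ∀ i < n,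
    (N / b ^ i % b * (5 ^ i * v) + 8 ^ i * u) * P ≤ fb s t i * (5 ^ i * v) * Q := by
  induction n with
  | zero => intro N s t u v _ i hi; omega
  | succ n ih =>
    intro N s t u v h i hi
    rw [lpr, Bool.and_eq_true] at h
    cases i with
    | zero =>
      have h1 : (N % b * v + u) * P ≤ s * v * Q := Nat.le_of_ble_eq_true h.1
      simp only [pow_zero, Nat.div_one, one_mul, fb]
      exact h1
    | succ i =>
      have h1 := ih _ _ _ _ _ h.2 i (by omega)
      have e1 : (Nat.div N b) / b ^ i = N / b ^ (i + 1) := by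
        rw [pow_succ, mul_comm, ← Nat.div_div_eq_div_mul]; rfl
      have e2 : 5 ^ i * Nat.mul 5 v = 5 ^ (i + 1) * v := by
        show 5 ^ i * (5 * v) = _; ring
      have e3 : 8 ^ i * Nat.mul 8 u = 8 ^ (i + 1) * u := by
        show 8 ^ i * (8 * u) = _; ring
      rw [e1, e2, e3] at h1
      exact h1

theorem lplr_spec (P Q b n s t : ℕ) (l : List ℕ) : ∀ N u v : ℕ, lplr P Q b n s t l N u v = true →
    (∀ i, ∀ hi : i < l.length,
      (N / b ^ i % b * (5 ^ i * v) + 8 ^ i * u) * P ≤ l[i] * (5 ^ i * v) * Q) ∧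
    (∀ i < n, (N / b ^ (l.length + i) % b * (5 ^ (l.length + i) * v) + 8 ^ (l.length + i) * u) * P ≤
      fb s t i * (5 ^ (l.length + i) * v) * Q) := by
  induction l with
  | nil =>
    intro N u v h
    refine ⟨fun i hi => by simp at hi, fun i hi => ?_⟩
    have := lpr_spec P Q b n N s t u v h i hi
    simpa using this
  | cons a l ih =>
    intro N u v h
    rw [lplr, Bool.and_eq_true] at h
    obtain ⟨h1, h2⟩ := ih _ _ _ h.2
    have e1 : ∀ i, (Nat.div N b) / b ^ i = N / b ^ (i + 1) := by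
      intro i; rw [pow_succ, mul_comm, ← Nat.div_div_eq_div_mul]; rfl
    have e2 : ∀ i, 5 ^ i * Nat.mul 5 v = 5 ^ (i + 1) * v := by
      intro i; show 5 ^ i * (5 * v) = _; ring
    have e3 : ∀ i, 8 ^ i * Nat.mul 8 u = 8 ^ (i + 1) * u := by
      intro i; show 8 ^ i * (8 * u) = _; ring
    constructor
    · intro i hi
      cases i with
      | zero =>
        have h1 : (N % b * v + u) * P ≤ a * v * Q := Nat.le_of_ble_eq_true h.1
        simp only [pow_zero, Nat.div_one, one_mul, List.getElem_cons_zero]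
        exact h1
      | succ i =>
        have := h1 i (by simpa using hi)
        rw [e1, e2, e3] at this
        simpa using this
    · intro i hi
      have := h2 i hi
      rw [e1, e2, e3] at this
      rw [List.length_cons, show l.length + 1 + i = l.length + i + 1 by ring]
      exact this

/-- the final comparison, with a factor -/
def finR (P Q B G n a4 b4 a5 b5 : ℕ) : Bool :=
  lplr P Q (Nat.pow 2 B) n 31042 49635 tl
    (Nat.div (totN B G a4 b4 a5 b5) (Nat.pow 2 B)) (103 * 8) (10000 * 5)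

theorem finR_A : finR 100 86 488 700 680 v4a v4b v5a v5b = true := by decide +kernel

theorem finR_B : finR 2 1 488 700 1 v4a v4b v5a v5b = true := by decide +kernel

theorem mid_r (P Q B G k k1 a4 b4 a5 b5 n : ℕ) (hG : 14 ≤ G) (hB : 2872 * 8 ^ G < 2 ^ B * 5 ^ G)
    (hk : k ≤ k1) (hk2 : 2 * k1 = G / 2)
    (h4a : blk 4 B G 0 k = a4) (h4b : blk 4 B G k k1 = b4) (h5a : blk 5 B G 0 k = a5)
    (h5b : blk 5 B G k k1 = b5) (hchk' : finR P Q B G n a4 b4 a5 b5 = true)
    (g : ℕ) (h1 : 1 ≤ g) (hg : g ≤ 20 + n) (hg' : g ≤ G) :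
    (T4 g).card * P ≤ Tt (g - 1) * Q := by
  have hchk : lplr P Q (Nat.pow 2 B) n 31042 49635 tl
      (Nat.div (totN B G a4 b4 a5 b5) (Nat.pow 2 B)) (103 * 8) (10000 * 5) = true := hchk'
  have hd := main_digit B G k k1 a4 b4 a5 b5 hk hk2 h4a h4b h5a h5b (Pm_lt B G hG hB) g hg'
  have hT := T4_le g G hg'
  rw [Ut_split G hG, Polynomial.coeff_add] at hT
  have hR := Rm_coeff_le G g
  have hR' : (Rm G).coeff g * (5 ^ g * 10000) ≤ 8 ^ g * 103 := by
    have h2 : ((Rm G).coeff g : ℚ) * (5 ^ g * 10000) ≤ 8 ^ g * 103 := by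
      have h8 : (0 : ℚ) < 8 ^ g * 10000 := by positivity
      have := mul_le_mul_of_nonneg_right hR h8.le
      calc ((Rm G).coeff g : ℚ) * (5 ^ g * 10000)
          = ((Rm G).coeff g : ℚ) * (5 / 8) ^ g * (8 ^ g * 10000) := by
            rw [div_pow]; field_simp
        _ ≤ 103 / 10000 * (8 ^ g * 10000) := this
        _ = 8 ^ g * 103 := by ring
    exact_mod_cast h2
  have key : ((Pm G).coeff g * (5 ^ g * 10000) + 8 ^ g * 103) * P ≤
      Tt (g - 1) * (5 ^ g * 10000) * Q := by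
    obtain ⟨c1, c2⟩ := lplr_spec _ _ _ _ _ _ _ _ _ _ hchk
    have eN : ∀ i, Nat.div (totN B G a4 b4 a5 b5) (Nat.pow 2 B) / (Nat.pow 2 B) ^ i =
        totN B G a4 b4 a5 b5 / (2 ^ B) ^ (i + 1) := by
      intro i
      rw [pow_succ, mul_comm, ← Nat.div_div_eq_div_mul]; rfl
    have e5 : ∀ i, 5 ^ i * (10000 * 5) = 5 ^ (i + 1) * 10000 := fun i => by ring
    have e8 : ∀ i, 8 ^ i * (103 * 8) = 8 ^ (i + 1) * 103 := fun i => by ring
    have em : ∀ a : ℕ, a % Nat.pow 2 B = a % 2 ^ B := fun a => rfl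
    rcases Nat.lt_or_ge (g - 1) 20 with h | h
    · have := c1 (g - 1) (by rw [tl_length]; exact h)
      rw [eN, e5, e8, em, show g - 1 + 1 = g by omega, hd] at this
      rw [Tt, if_pos h, List.getD_eq_getElem _ _ (by rw [tl_length]; exact h)]
      exact this
    · obtain ⟨m, hm⟩ := Nat.exists_eq_add_of_le h
      have := c2 m (by omega)
      rw [tl_length, eN, e5, e8, em, show 20 + m + 1 = g by omega, hd] at this
      rw [hm, Tt_add]
      exact this
  have h5 : 0 < 5 ^ g * 10000 := by positivity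
  have h6 : (T4 g).card * P * (5 ^ g * 10000) ≤ Tt (g - 1) * Q * (5 ^ g * 10000) := by
    calc (T4 g).card * P * (5 ^ g * 10000) = (T4 g).card * (5 ^ g * 10000) * P := by ring
      _ ≤ ((Pm G).coeff g + (Rm G).coeff g) * (5 ^ g * 10000) * P :=
          Nat.mul_le_mul_right _ (Nat.mul_le_mul_right _ hT)
      _ = ((Pm G).coeff g * (5 ^ g * 10000) + (Rm G).coeff g * (5 ^ g * 10000)) * P := by ring
      _ ≤ ((Pm G).coeff g * (5 ^ g * 10000) + 8 ^ g * 103) * P :=
          Nat.mul_le_mul_right _ (Nat.add_le_add_left hR' _)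
      _ ≤ Tt (g - 1) * (5 ^ g * 10000) * Q := key
      _ = Tt (g - 1) * Q * (5 ^ g * 10000) := by ring
  exact Nat.le_of_mul_le_mul_right h6 h5

theorem mid700A (g : ℕ) (h1 : 1 ≤ g) (hg : g ≤ 20 + 680) (hg' : g ≤ 700) :
    (T4 g).card * 100 ≤ Tt (g - 1) * 86 :=
  mid_r 100 86 488 700 4 175 v4a v4b v5a v5b 680 small14
    (blt_lt (a := 2872 * 8 ^ 700) (b := 2 ^ 488 * 5 ^ 700) baseB) small4 small350
    (Nat.eq_of_beq_eq_true (n := blk 4 488 700 0 4) (m := v4a) v4a_eq)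
    (Nat.eq_of_beq_eq_true (n := blk 4 488 700 4 175) (m := v4b) v4b_eq)
    (Nat.eq_of_beq_eq_true (n := blk 5 488 700 0 4) (m := v5a) v5a_eq)
    (Nat.eq_of_beq_eq_true (n := blk 5 488 700 4 175) (m := v5b) v5b_eq) finR_A g h1 hg hg'

theorem mid700B (g : ℕ) (h1 : 1 ≤ g) (hg : g ≤ 20 + 1) (hg' : g ≤ 700) :
    (T4 g).card * 2 ≤ Tt (g - 1) * 1 :=
  mid_r 2 1 488 700 4 175 v4a v4b v5a v5b 1 small14
    (blt_lt (a := 2872 * 8 ^ 700) (b := 2 ^ 488 * 5 ^ 700) baseB) small4 small350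
    (Nat.eq_of_beq_eq_true (n := blk 4 488 700 0 4) (m := v4a) v4a_eq)
    (Nat.eq_of_beq_eq_true (n := blk 4 488 700 4 175) (m := v4b) v4b_eq)
    (Nat.eq_of_beq_eq_true (n := blk 5 488 700 0 4) (m := v5a) v5a_eq)
    (Nat.eq_of_beq_eq_true (n := blk 5 488 700 4 175) (m := v5b) v5b_eq) finR_B g h1 hg hg'

/-- the analytic bound -/
theorem T4_pow (g : ℕ) : (T4 g).card * 5 ^ g ≤ 2872 * 8 ^ g := by
  have hT := T4_le g g le_rfl
  have hU := Ut_coeff_le g g
  have h1 : (Ut g).coeff g * 5 ^ g ≤ 2872 * 8 ^ g := by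
    have h2 : ((Ut g).coeff g : ℚ) * 5 ^ g ≤ 2872 * 8 ^ g := by
      have h8 : (0 : ℚ) < 8 ^ g := by positivity
      have := mul_le_mul_of_nonneg_right hU h8.le
      calc ((Ut g).coeff g : ℚ) * 5 ^ g
          = ((Ut g).coeff g : ℚ) * (5 / 8) ^ g * 8 ^ g := by
            rw [div_pow]; field_simp
        _ ≤ 2872 * 8 ^ g := this
    exact_mod_cast h2
  exact (Nat.mul_le_mul_right _ hT).trans h1

theorem big_r (P Q m : ℕ) (h0 : 2872 * 8 ^ (20 + m + 1) * P ≤ Tt (20 + m) * 5 ^ (20 + m + 1) * Q)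
    (h1 : 2872 * 8 ^ (20 + (m + 1) + 1) * P ≤
      Tt (20 + (m + 1)) * 5 ^ (20 + (m + 1) + 1) * Q) (k : ℕ) :
    2872 * 8 ^ (20 + (m + k) + 1) * P ≤ Tt (20 + (m + k)) * 5 ^ (20 + (m + k) + 1) * Q := by
  induction k using Nat.twoStepInduction with
  | zero => exact h0
  | one => exact h1
  | more k ih1 ih2 =>
    rw [Tt_add] at ih1 ih2 ⊢
    have e : m + (k + 2) = m + k + 2 := by ring
    have e' : m + (k + 1) = m + k + 1 := by ring
    rw [e, fb_add]
    rw [e'] at ih2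
    have p1 : 2872 * 8 ^ (20 + (m + k + 2) + 1) * P =
        64 * (2872 * 8 ^ (20 + (m + k) + 1) * P) := by ring
    have p3 : 2872 * 8 ^ (20 + (m + k + 1) + 1) * P =
        8 * (2872 * 8 ^ (20 + (m + k) + 1) * P) := by ring
    have q1 : fb 31042 49635 (m + k + 1) * 5 ^ (20 + (m + k + 1) + 1) * Q =
      5 * (fb 31042 49635 (m + k + 1) * 5 ^ (20 + (m + k) + 1) * Q) := by ring
    have q2 : (fb 31042 49635 (m + k + 1) + fb 31042 49635 (m + k)) *
      5 ^ (20 + (m + k + 2) + 1) * Q =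
      25 * (fb 31042 49635 (m + k + 1) * 5 ^ (20 + (m + k) + 1) * Q) +
      25 * (fb 31042 49635 (m + k) * 5 ^ (20 + (m + k) + 1) * Q) := by ring
    rw [p3, q1] at ih2
    rw [p1, q2]
    omega

theorem tail_r (P Q m : ℕ)
    (h0 : 2872 * 8 ^ (20 + m + 1) * P ≤ Tt (20 + m) * 5 ^ (20 + m + 1) * Q)
    (h1 : 2872 * 8 ^ (20 + (m + 1) + 1) * P ≤ Tt (20 + (m + 1)) * 5 ^ (20 + (m + 1) + 1) * Q)
    (g : ℕ) (hg : 20 + m + 1 ≤ g) : (T4 g).card * P ≤ Tt (g - 1) * Q := by
  have h2 := big_r P Q m h0 h1 (g - (20 + m + 1))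
  have e : 20 + (m + (g - (20 + m + 1))) = g - 1 := by omega
  rw [e, show g - 1 + 1 = g by omega] at h2
  have h3 : (T4 g).card * P * 5 ^ g ≤ Tt (g - 1) * Q * 5 ^ g := by
    calc (T4 g).card * P * 5 ^ g = (T4 g).card * 5 ^ g * P := by ring
      _ ≤ 2872 * 8 ^ g * P := Nat.mul_le_mul_right _ (T4_pow g)
      _ ≤ Tt (g - 1) * 5 ^ g * Q := h2
      _ = Tt (g - 1) * Q * 5 ^ g := by ring
  exact Nat.le_of_mul_le_mul_right h3 (by positivity)

/-- comparison -/
def leB (a b : ℕ) : Bool := Nat.ble a b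

theorem ble_le {a b : ℕ} (h : leB a b = true) : a ≤ b := Nat.le_of_ble_eq_true h

theorem bl0 : leB (2872 * 8 ^ (20 + 680 + 1) * 2000)
    (Tt (20 + 680) * 5 ^ (20 + 680 + 1) * 1769) = true := by decide +kernel

theorem bl1 : leB (2872 * 8 ^ (20 + (680 + 1) + 1) * 2000)
    (Tt (20 + (680 + 1)) * 5 ^ (20 + (680 + 1) + 1) * 1769) = true := by decide +kernel

theorem bm0 : leB (2872 * 8 ^ (20 + 1179 + 1) * 1000)
    (Tt (20 + 1179) * 5 ^ (20 + 1179 + 1) * 4) = true := by decide +kernel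

theorem bm1 : leB (2872 * 8 ^ (20 + (1179 + 1) + 1) * 1000)
    (Tt (20 + (1179 + 1)) * 5 ^ (20 + (1179 + 1) + 1) * 4) = true := by decide +kernel

/-- all genera -/
theorem T4_all (g : ℕ) (hg : 1 ≤ g) : (T4 g).card * 2000 ≤ Tt (g - 1) * 1769 := by
  rcases Nat.lt_or_ge g 701 with h | h
  · have h1 := mid700A g hg (by omega) (by omega)
    omega
  · exact tail_r 2000 1769 680 (ble_le bl0) (ble_le bl1) g (by omega)

/-- large genera -/
theorem T4_large (g : ℕ) (hg : 1200 ≤ g) : (T4 g).card * 1000 ≤ Tt (g - 1) * 4 :=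
  tail_r 1000 4 1179 (ble_le bm0) (ble_le bm1) g (by omega)

/-- small genera -/
theorem T4_small (g : ℕ) (hg : 1 ≤ g) (h : g ≤ 21) : (T4 g).card * 2 ≤ Tt (g - 1) * 1 :=
  mid700B g hg (by omega) (by omega)

end Pool.Agent.Y460.NS
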