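import Pool.Agent.Y460.NS.Chk

/-!
Growth of the number of numerical semigroups.
-/

set_option autoImplicit false

namespace Pool.Agent.Y460.NS

open Pool.Agent.H502R2 Finset
open scoped goldenRatio

theorem last_cover {n : ℕ} (hn : 1 ≤ n) {w : List ℕ} (hw : w ∈ TW n) :
    ∃ v a, w = v ++ [a] ∧ 1 ≤ a ∧ a ≤ 3 ∧ a ≤ n ∧ v ∈ TW (n - a) := by
  obtain ⟨h1, h2, h3⟩ := hw
  rcases List.eq_nil_or_concat w with h | ⟨v, a, h⟩
  · rw [h] at h3
    simp at h3
    omega
  · rw [List.concat_eq_append] at h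
    subst h
    have ha := h1 a (by simp)
    have hs : v.sum + a = n := by simpa using h3
    refine ⟨v, a, rfl, ha.1, ha.2, by omega, fun x hx => h1 x (by simp [hx]), TC_of_append h2, ?_⟩
    omega

theorem TW_upper (n : ℕ) (hn : 1 ≤ n) : (TW n).ncard ≤ (TW (n - 1)).ncard +
    ((if 2 ≤ n then (TW (n - 2)).ncard else 0) + if 3 ≤ n then (TW (n - 3)).ncard else 0) := by
  classical
  have hsub : TW n ⊆ (fun w : List ℕ => w ++ [1]) '' TW (n - 1) ∪
      ((if 2 ≤ n then (fun w : List ℕ => w ++ [2]) '' TW (n - 2) else ∅) ∪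
        if 3 ≤ n then (fun w : List ℕ => w ++ [3]) '' TW (n - 3) else ∅) := by
    intro w hw
    obtain ⟨v, a, rfl, ha1, ha3, han, hv⟩ := last_cover hn hw
    have : a = 1 ∨ a = 2 ∨ a = 3 := by omega
    rcases this with rfl | rfl | rfl
    · exact Or.inl ⟨v, hv, rfl⟩
    · refine Or.inr (Or.inl ?_)
      rw [if_pos han]
      exact ⟨v, hv, rfl⟩
    · refine Or.inr (Or.inr ?_)
      rw [if_pos han]
      exact ⟨v, hv, rfl⟩
  have hfin : ((fun w : List ℕ => w ++ [1]) '' TW (n - 1) ∪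
      ((if 2 ≤ n then (fun w : List ℕ => w ++ [2]) '' TW (n - 2) else ∅) ∪
        if 3 ≤ n then (fun w : List ℕ => w ++ [3]) '' TW (n - 3) else ∅)).Finite := by
    refine ((TW_finite _).image _).union (Set.Finite.union ?_ ?_)
    · split_ifs
      · exact (TW_finite _).image _
      · exact Set.finite_empty
    · split_ifs
      · exact (TW_finite _).image _
      · exact Set.finite_empty
  refine (Set.ncard_le_ncard hsub hfin).trans ((Set.ncard_union_le _ _).trans ?_)
  refine Nat.add_le_add (Set.ncard_image_le (TW_finite _))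
    ((Set.ncard_union_le _ _).trans (Nat.add_le_add ?_ ?_))
  · split_ifs
    · exact Set.ncard_image_le (TW_finite _)
    · rw [Set.ncard_empty]
  · split_ifs
    · exact Set.ncard_image_le (TW_finite _)
    · rw [Set.ncard_empty]

theorem TW_mono (n : ℕ) : (TW n).ncard ≤ (TW (n + 1)).ncard := by
  have hi1 : Function.Injective (fun w : List ℕ => w ++ [1]) := fun a b h => by simpa using h
  rw [← Set.ncard_image_of_injective (TW n) hi1]
  refine Set.ncard_le_ncard ?_ (TW_finite _)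
  rintro _ ⟨w, hw, rfl⟩
  refine ⟨?_, TC_append hw.2.1 (Or.inl (by omega)), ?_⟩
  · intro x hx
    simp only [List.mem_append, List.mem_singleton] at hx
    rcases hx with hx | hx
    · exact hw.1 x hx
    · omega
  · simp [hw.2.2]

theorem TW_two (n : ℕ) : (TW (n + 1)).ncard ≤ 2 * (TW n).ncard := by
  have h := TW_upper (n + 1) (by omega)
  rw [Nat.add_sub_cancel] at h
  rcases Nat.lt_or_ge n 2 with h2 | h2
  · rw [if_neg (show ¬ 3 ≤ n + 1 by omega)] at h
    rcases Nat.eq_zero_or_pos n with h0 | h0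
    · rw [if_neg (show ¬ 2 ≤ n + 1 by omega)] at h
      omega
    · rw [if_pos (show 2 ≤ n + 1 by omega)] at h
      obtain rfl : n = 1 := by omega
      have h7 : (TW 0).ncard ≤ (TW 1).ncard := TW_mono 0
      have h8 : (TW (1 + 1)).ncard ≤ (TW 1).ncard + ((TW 0).ncard + 0) := h
      omega
  · obtain ⟨m, rfl⟩ := Nat.exists_eq_add_of_le h2
    rw [if_pos (by omega), if_pos (by omega)] at h
    have e1 : 2 + m + 1 - 2 = m + 1 := by omega
    have e2 : 2 + m + 1 - 3 = m := by omega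
    rw [e1, e2] at h
    have h3 := TW_rec m
    rw [show m + 2 = 2 + m by omega] at h3
    omega

/-- the number of the numerical semigroups of genus `g` -/
noncomputable def ng (g : ℕ) : ℕ := (SG g).ncard

theorem ng_factor (g : ℕ) (hg : 1 ≤ g) : 26 * ng g ≤ 25 * ng (g + 1) := by
  obtain ⟨h, rfl⟩ := Nat.exists_eq_add_of_le hg
  have h1 := SG_card (1 + h)
  have h2 := T4_all (1 + h) (by omega)
  have h3 := Tt_le h
  have h4 := TW_rec h
  have h5 := TW_le (1 + h + 1)
  have h6 := TW_two h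
  rw [show 1 + h - 1 = h by omega] at h2
  rw [show 1 + h + 1 = h + 2 by omega] at h5 ⊢
  rw [show 1 + h = h + 1 by omega] at h1 h2 ⊢
  unfold ng
  omega

theorem ng_upper (g : ℕ) : ng (g + 1) ≤ 3 * ng g := by
  have h1 := SG_card (g + 1)
  have h2 := T4_all (g + 1) (by omega)
  have h3 := Tt_le g
  have h5 := TW_le g
  have h6 := TW_two g
  rw [show g + 1 - 1 = g by omega] at h2
  unfold ng
  omega

theorem ng_large (g : ℕ) (hg : 1200 ≤ g) : 149 * ng g ≤ 100 * ng (g + 1) := by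
  obtain ⟨h, rfl⟩ := Nat.exists_eq_add_of_le (show 1 ≤ g by omega)
  have h1 := SG_card (1 + h)
  have h2 := T4_large (1 + h) (by omega)
  have h3 := Tt_le h
  have h4 := TW_rec h
  have h5 := TW_le (1 + h + 1)
  have h6 := TW_two h
  rw [show 1 + h - 1 = h by omega] at h2
  rw [show 1 + h + 1 = h + 2 by omega] at h5 ⊢
  rw [show 1 + h = h + 1 by omega] at h1 h2 ⊢
  unfold ng
  omega

theorem ng_fib_large (g : ℕ) (hg : 1200 ≤ g) : 99 * (ng (g + 1) + ng g) ≤ 100 * ng (g + 2) := by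
  have h1 := SG_card (g + 1)
  have h1' := SG_card g
  have h2 := T4_large (g + 1) (by omega)
  have h2' := T4_large g hg
  have h3 := Tt_le g
  have h3' := Tt_le (g - 1)
  have h4 := TW_rec g
  have h5 := TW_le (g + 2)
  have h6 := TW_mono (g - 1)
  have h7 := TW_mono g
  rw [show g + 1 - 1 = g by omega] at h2
  rw [show g - 1 + 1 = g by omega] at h6
  unfold ng
  omega

theorem ng_fib (g : ℕ) : ((ng (g + 1) : ℕ) : ℝ) + ng g ≤ ng (g + 2) + 7468 * (8 / 5 : ℝ) ^ g := by
  have h1 := SG_card (g + 1)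
  have h1' := SG_card g
  have h4 := TW_rec g
  have h5 := TW_le (g + 2)
  have key : ∀ n : ℕ, ((T4 n).card : ℝ) ≤ 2872 * (8 / 5 : ℝ) ^ n := by
    intro n
    have h := T4_pow n
    have h' : ((T4 n).card : ℝ) * 5 ^ n ≤ 2872 * 8 ^ n := by exact_mod_cast h
    have h5' : (0 : ℝ) < 5 ^ n := by positivity
    rw [div_pow, ← mul_div_assoc, le_div_iff₀ h5']
    exact h'
  have k1 := key (g + 1)
  have k2 := key g
  have e : (8 / 5 : ℝ) ^ (g + 1) = (8 / 5 : ℝ) ^ g * (8 / 5) := pow_succ _ _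
  rw [e] at k1
  have hN : ng (g + 1) + ng g ≤ ng (g + 2) + ((T4 (g + 1)).card + (T4 g).card) := by
    unfold ng
    omega
  have hN' : ((ng (g + 1) : ℕ) : ℝ) + ng g ≤ ng (g + 2) + ((T4 (g + 1)).card + (T4 g).card) := by
    exact_mod_cast hN
  have hp : (0 : ℝ) < (8 / 5 : ℝ) ^ g := by positivity
  linarith

/-- upper bound of the powers of the golden ratio -/
theorem phi_pow_le (n : ℕ) : φ ^ (n + 1) ≤ 2 * (Nat.fib (n + 1) : ℝ) + Nat.fib n := by
  have h := Real.fib_succ_sub_goldenConj_mul_fib (n + 1)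
  have h1 : (Nat.fib (n + 2) : ℝ) = Nat.fib n + Nat.fib (n + 1) := by
    exact_mod_cast Nat.fib_add_two
  have h2 : -1 < ψ := Real.neg_one_lt_goldenConj
  have h3 : (0 : ℝ) ≤ Nat.fib (n + 1) := Nat.cast_nonneg _
  rw [show n + 1 + 1 = n + 2 by ring, h1] at h
  nlinarith

theorem phi_lt : φ < 16181 / 10000 := by
  have h1 : φ = (1 + √5) / 2 := rfl
  have h2 : √5 < 22361 / 10000 := by
    rw [Real.sqrt_lt' (by norm_num)]
    norm_num
  rw [h1]
  linarith

theorem phi_eq (n : ℕ) : φ ^ (n + 1) = φ * Nat.fib (n + 1) + Nat.fib n := by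
  induction n with
  | zero => simp
  | succ n ih =>
    have h1 : (Nat.fib (n + 2) : ℝ) = Nat.fib n + Nat.fib (n + 1) := by
      exact_mod_cast Nat.fib_add_two
    rw [pow_succ, ih, h1]
    have h2 : φ ^ 2 = φ + 1 := Real.goldenRatio_sq
    nlinarith

theorem Tt_phi (k : ℕ) : 2 * φ ^ (20 + k) ≤ (Tt (20 + k) : ℝ) := by
  induction k using Nat.twoStepInduction with
  | zero =>
    have h := phi_eq 19
    have e1 : Nat.fib (19 + 1) = 6765 := by decide +kernel
    have e2 : Nat.fib 19 = 4181 := by decide +kernel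
    rw [e1, e2] at h
    have h3 : Tt (20 + 0) = 31042 := by rw [Tt_add]; rfl
    rw [h3, show 20 + 0 = 19 + 1 by norm_num, h]
    push_cast
    have := phi_lt
    linarith
  | one =>
    have h := phi_eq 20
    have e1 : Nat.fib (20 + 1) = 10946 := by decide +kernel
    have e2 : Nat.fib 20 = 6765 := by decide +kernel
    rw [e1, e2] at h
    have h3 : Tt (20 + 1) = 49635 := by rw [Tt_add]; rfl
    rw [h3, h]
    push_cast
    have := phi_lt
    linarith
  | more k ih1 ih2 =>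
    rw [Tt_add] at ih1 ih2 ⊢
    rw [fb_add]
    push_cast
    have h := Real.goldenRatio_pow_sub_goldenRatio_pow (20 + k)
    rw [show 20 + (k + 2) = 20 + k + 2 by ring]
    rw [show 20 + (k + 1) = 20 + k + 1 by ring] at ih2
    linarith

theorem small_phi : ∀ h < 21, 2 * Nat.fib (h + 1) + Nat.fib h ≤ 4 * Tt h := by decide +kernel

theorem ng_increment (g : ℕ) (hg : 1 ≤ g) : ((ng g : ℕ) : ℝ) + φ ^ g / 8 ≤ ng (g + 1) := by
  obtain ⟨h, rfl⟩ := Nat.exists_eq_add_of_le hg
  have h1 := SG_card (1 + h)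
  have h3 := Tt_le h
  have h4 := TW_rec h
  have h5 := TW_le (1 + h + 1)
  rw [show 1 + h + 1 = h + 2 by omega] at h5 ⊢
  rw [show 1 + h = h + 1 by omega] at h1 ⊢
  have hN : ng (h + 1) + Tt h ≤ ng (h + 2) + (T4 (h + 1)).card := by
    unfold ng
    omega
  have hN' : ((ng (h + 1) : ℕ) : ℝ) + Tt h ≤ ng (h + 2) + (T4 (h + 1)).card := by
    exact_mod_cast hN
  rcases Nat.lt_or_ge h 21 with h7 | h7
  · have h2 := T4_small (h + 1) (by omega) (by omega)
    rw [Nat.add_sub_cancel] at h2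
    have h2' : ((T4 (h + 1)).card : ℝ) * 2 ≤ (Tt h : ℝ) := by
      exact_mod_cast (by omega : (T4 (h + 1)).card * 2 ≤ Tt h)
    have h8 := phi_pow_le h
    have h9 : 2 * (Nat.fib (h + 1) : ℝ) + Nat.fib h ≤ 4 * Tt h := by
      exact_mod_cast small_phi h h7
    linarith
  · have h2 := T4_all (h + 1) (by omega)
    rw [Nat.add_sub_cancel] at h2
    have h2' : ((T4 (h + 1)).card : ℝ) * 2000 ≤ (Tt h : ℝ) * 1769 := by exact_mod_cast h2
    obtain ⟨k, rfl⟩ := Nat.exists_eq_add_of_le (show 20 ≤ h by omega)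
    have h8 := Tt_phi k
    have h9 : φ ^ (20 + k + 1) = φ ^ (20 + k) * φ := pow_succ _ _
    have h10 : (0 : ℝ) < φ ^ (20 + k) := pow_pos Real.goldenRatio_pos _
    have h11 := phi_lt
    rw [h9]
    nlinarith

/-- the semigroups of genus `g` with a gap larger than three times the multiplicity -/
theorem deep_le (g : ℕ) {A : Set (Set ℕ)}
    (hA : ∀ T ∈ A, ∃ S ∈ SG g, (S : Set ℕ) = T ∧ ∃ x, x ∉ T ∧ 3 * sInf {n | n ∈ T ∧ 0 < n} < x) :
    (A.ncard : ℝ) ≤ 2872 * (8 / 5 : ℝ) ^ g := by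
  classical
  have h1 : A ⊆ (fun S : AddSubmonoid ℕ => (S : Set ℕ)) '' (T4 g : Set (AddSubmonoid ℕ)) := by
    intro T hT
    obtain ⟨S, hS, rfl, x, hx, hlt⟩ := hA T hT
    refine ⟨S, ?_, rfl⟩
    have hlt' : 3 * mul S < x := hlt
    have hm := (mul_spec hS).2
    have hx' : ¬ kz S (x % mul S) ≤ x / mul S := fun h => hx ((mem_iff' hS x).2 h)
    have h3 : 3 ≤ x / mul S := by
      rw [Nat.le_div_iff_mul_le hm]
      omega
    rw [Finset.mem_coe, T4, Finset.mem_filter, mem_SF]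
    exact ⟨hS, x % mul S, Nat.mod_lt _ hm, by omega⟩
  have h2 : A.ncard ≤ (T4 g).card := by
    refine (Set.ncard_le_ncard h1 ((Finset.finite_toSet _).image _)).trans ?_
    refine (Set.ncard_image_le (Finset.finite_toSet _)).trans ?_
    rw [Set.ncard_coe_finset]
  have h := T4_pow g
  have h' : ((T4 g).card : ℝ) * 5 ^ g ≤ 2872 * 8 ^ g := by exact_mod_cast h
  have h5' : (0 : ℝ) < 5 ^ g := by positivity
  have h6 : ((T4 g).card : ℝ) ≤ 2872 * (8 / 5 : ℝ) ^ g := by
    rw [div_pow, ← mul_div_assoc, le_div_iff₀ h5']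
    exact h'
  exact (by exact_mod_cast h2 : (A.ncard : ℝ) ≤ (T4 g).card).trans h6

end Pool.Agent.Y460.NS
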